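import Pool.Agent.Helper97.KT.Orbit

/-!
# Almost no orbit reaches `0` within four steps
-/

open Filter Topology

namespace Pool.Agent.Results.MP_303e58_nt.ShortOrbitsAreRare

/-- The map of the problem: `a(n) = ∑_{q ∣ n prime} 2^{π(q)-1}` for `n ≥ 1`, and `a(0) = 0`. -/
def a (n : ℕ) : ℕ := ∑ q ∈ n.primeFactors, 2 ^ (Nat.primeCounting q - 1)

open Classical in
/-- The set `A` has natural density `δ`: `#{1 ≤ n ≤ x : n ∈ A} / x` tends to `δ`. -/
def HasDensity (A : Set ℕ) (δ : ℝ) : Prop :=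
  Tendsto (fun x : ℕ => (((Finset.Icc 1 x).filter (fun n => n ∈ A)).card : ℝ) / x) atTop (𝓝 δ)

theorem hasDensity_one (G : Set ℕ) (c : ℕ → ℝ) (h0 : Tendsto (fun x : ℕ => c x / x) atTop (𝓝 0))
    (hc : ∀ x : ℕ, ∀ B : Finset ℕ, (∀ n, n ∈ B ↔ n ∈ Finset.Icc 1 x ∧ n ∉ G) →
      (B.card : ℝ) ≤ c x) : HasDensity G 1 := by
  classical
  unfold HasDensity
  have hcard : ∀ x : ℕ, (((Finset.Icc 1 x).filter (fun n => n ∈ G)).card : ℝ)
      + (((Finset.Icc 1 x).filter (fun n => n ∉ G)).card : ℝ) = x := by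
    intro x
    have := Finset.card_filter_add_card_filter_not (s := Finset.Icc 1 x) (fun n => n ∈ G)
    rw [Nat.card_Icc, Nat.add_sub_cancel] at this
    exact_mod_cast this
  have hle : ∀ x : ℕ, (((Finset.Icc 1 x).filter (fun n => n ∈ G)).card : ℝ) ≤ x := by
    intro x
    have h1 := hcard x
    have h2 : (0 : ℝ) ≤ (((Finset.Icc 1 x).filter (fun n => n ∉ G)).card : ℝ) := Nat.cast_nonneg _
    linarith
  have hge : ∀ x : ℕ, (x : ℝ) - c x ≤ (((Finset.Icc 1 x).filter (fun n => n ∈ G)).card : ℝ) := by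
    intro x
    have h1 := hcard x
    have h2 := hc x ((Finset.Icc 1 x).filter (fun n => n ∉ G)) fun n => Finset.mem_filter
    linarith
  have h1 : Tendsto (fun x : ℕ => 1 - c x / x) atTop (𝓝 1) := by
    simpa using (tendsto_const_nhds (x := (1 : ℝ))).sub h0
  refine tendsto_of_tendsto_of_tendsto_of_le_of_le' h1 tendsto_const_nhds ?_ ?_
  · filter_upwards [eventually_gt_atTop 0] with x hx
    have hx0 : (0 : ℝ) < x := by exact_mod_cast hx
    rw [le_div_iff₀ hx0, sub_mul, div_mul_cancel₀ _ hx0.ne', one_mul]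
    exact hge x
  · filter_upwards [eventually_gt_atTop 0] with x hx
    have hx0 : (0 : ℝ) < x := by exact_mod_cast hx
    rw [div_le_one hx0]
    exact hle x

/-- For every `J`, for all `n` outside a set of natural density `0`: `a(n)` has more than `J`
prime factors, the orbit of `n` does not reach `0` within four steps, and, if `n` is even, not
within five steps. -/
theorem result (J : ℕ) :
    HasDensity {n | J < (a n).primeFactors.card ∧ a^[4] n ≠ 0 ∧ (Even n → a^[5] n ≠ 0)} 1 := by
  apply hasDensity_one _ _ (Helper97.KT.asy_omega (J + 1)).tendsto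
  intro x B hB
  have hsub : B ⊆ (Finset.Ioc 0 x).filter
      (fun n => (Helper97.KT.enc n).primeFactors.card ≤ J + 1) := by
    intro n hn
    obtain ⟨hx, hG⟩ := (hB n).1 hn
    rw [Finset.mem_Icc] at hx
    rw [Finset.mem_filter, Finset.mem_Ioc]
    refine ⟨⟨by omega, hx.2⟩, ?_⟩
    by_contra hcon
    apply hG
    have h4 : Helper97.KT.enc^[4] n ≠ 0 := by
      intro h'
      have := Helper97.KT.four_steps h'
      omega
    have h' : J + 1 < (a n).primeFactors.card := not_le.1 hcon
    exact ⟨by omega, h4, fun he h5 => h4 (Helper97.KT.five_steps he h5)⟩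
  exact_mod_cast Finset.card_le_card hsub

end Pool.Agent.Results.MP_303e58_nt.ShortOrbitsAreRare
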